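import Pool.Agent.W850.Ord.LowDens

/-!
# A common infinite set of ordinary primes for the intersection cohomology of many varieties

`K₀` is a number field.  The generators: for every `n : ℕ` a finite extension `K n` of `K₀` and finitely
many pure motives `A n i` over `K n` with multiplication by totally real or CM fields, each with its own
finite set `S n i` of bad residue characteristics (over `K n` the `ℓ n`-adic monodromy groups are
connected, for one prime `ℓ n`).  For example, `A n` are the first `n` members of an enumeration of the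
following motives over finite extensions of `K₀`, all considered over a large finite extension `K n`: the
`H¹` of all elliptic curves and all abelian surfaces, the `H²` of all K3 surfaces, and other motives with
multiplications with small Hodge numbers.

Orbit condition: for every `n` there is an element `γ` of the Galois group of `K n` which is `Admissible`
for all `A n i` (the identity will do if the defects are at most two, as in the example).

Let `X` be a projective variety over `K₀`, singular or not, `V i ℓ'` its intersection cohomology groups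
`IH^i`, with `i` in a finite set `ν`, and `H i` their Hodge-Tate slopes.  The `V i` are strictly
compatible outside a finite set `T` of residue characteristics, which depends on `X`.

Hypothesis on `X`: the `V i` are potentially in the tensor category generated by the `A n i`: over `K n`,
a Tate twist of `V i` is a direct summand of a direct sum of tensor products of pieces of the `A n i`
(`IsSummand`).

Theorem.
1. If the hypothesis holds for one `n`, the primes of `K₀` at which all `IH^i` of `X` are ordinary have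
   lower density at least the proportion of the admissible elements divided by `[K n : K₀]`.
2. There is *one* infinite set `P` of primes of `K₀` which works for *all* `X`: if the hypothesis holds for
   all large `n` then all `IH^i` of `X` are ordinary at all but finitely many primes in `P`.  The lower
   density of `P` is at least `c`, if `c` is at most the proportion of the admissible elements divided by
   `[K n : K₀]`, for every `n`.  (Density one, if all fields `K n` are `K₀` and all elements are admissible.)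
-/

set_option autoImplicit false

namespace Pool.Agent.Results.MP_db07cb_ag.CommonOrdinaryPrimes

open NumberField IsDedekindDomain Polynomial Filter Topology
open Pool.Agent.W401.Cheb Pool.Agent.W528.Ord Pool.Agent.R915.Ord Pool.Agent.W850.Ord

/-- The `V ℓ'` are strictly compatible: at the places of degree one outside `T` the characteristic
polynomial of the geometric Frobenius element (the inverse of `γ`) is `F v`. -/
def StrictlyCompatible {K₀ : Type} [Field K₀] [NumberField K₀] (T : Finset ℕ) {r : ℕ}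
    (V : ∀ (ℓ' : ℕ) [Fact ℓ'.Prime], GK K₀ →* Matrix.GeneralLinearGroup (Fin r) ℚ_[ℓ'])
    (F : HeightOneSpectrum (𝓞 K₀) → Polynomial ℤ) : Prop :=
  ∀ (ℓ' : ℕ) [Fact ℓ'.Prime] (v₀ : HeightOneSpectrum (𝓞 K₀)), MultSystem.IsDeg1 T v₀ →
    Ideal.absNorm v₀.asIdeal ≠ ℓ' → ∀ γ : GK K₀, IsFrob v₀ γ →
      (V ℓ' γ⁻¹ : Matrix (Fin r) (Fin r) ℚ_[ℓ']).charpoly = (F v₀).map (Int.castRingHom ℚ_[ℓ'])

/-- `v₀` has degree one, and for every prime `ℓ'` different from the residue characteristic `p = N v₀`
and every embedding `τ` of the field of algebraic numbers the Newton polygon of `V ℓ'` at `v₀` has the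
slopes `H`. -/
def Ordinary {K₀ : Type} [Field K₀] [NumberField K₀] {r : ℕ}
    (V : ∀ (ℓ' : ℕ) [Fact ℓ'.Prime], GK K₀ →* Matrix.GeneralLinearGroup (Fin r) ℚ_[ℓ'])
    (H : Multiset ℕ) (v₀ : HeightOneSpectrum (𝓞 K₀)) : Prop :=
  ∃ (p : ℕ) (_ : Fact p.Prime), Ideal.absNorm v₀.asIdeal = p ∧
    ∀ (ℓ' : ℕ) [Fact ℓ'.Prime], p ≠ ℓ' → ∀ γ : GK K₀, IsFrob v₀ γ →
      ∀ τ : algebraicClosure ℚ (PadicAlgCl ℓ') →+* PadicAlgCl p,
        NewtonTau (V ℓ' γ⁻¹ : Matrix (Fin r) (Fin r) ℚ_[ℓ']) τ H

theorem ordinary_of {K₀ : Type} [Field K₀] [NumberField K₀] (T : Finset ℕ) {r : ℕ}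
    (V : ∀ (ℓ' : ℕ) [Fact ℓ'.Prime], GK K₀ →* Matrix.GeneralLinearGroup (Fin r) ℚ_[ℓ'])
    (F : HeightOneSpectrum (𝓞 K₀) → Polynomial ℤ) (H : Multiset ℕ) (hV : StrictlyCompatible T V F)
    (v₀ : HeightOneSpectrum (𝓞 K₀)) (hv : MultSystem.IsDeg1 T v₀)
    (hN : NewtonSlopes (Ideal.absNorm v₀.asIdeal) (F v₀) H) : Ordinary V H v₀ := by
  have hN' := hN
  obtain ⟨hp, -⟩ := hN
  refine ⟨Ideal.absNorm v₀.asIdeal, hp, rfl, ?_⟩
  intro ℓ' _ hne γ hγ τ
  exact newtonTau_of _ τ _ (F v₀) (hV ℓ' v₀ hv hne γ hγ) hN'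

theorem result (K₀ : Type) [Field K₀] [NumberField K₀]
    -- the fields of definition and the generators
    (K : ℕ → Type) [∀ n, Field (K n)] [∀ n, NumberField (K n)] [∀ n, Algebra K₀ (K n)]
    (ℓ : ℕ → ℕ) [∀ n, Fact (ℓ n).Prime] (ι : ℕ → Type) [∀ n, Fintype (ι n)]
    (A : ∀ n, ι n → MotSystem (K n) (ℓ n)) (χ : ∀ n, GK (K n) →* (PadicAlgCl (ℓ n))ˣ)
    (S : ∀ n, ι n → Finset ℕ) (hA : ∀ n i, (A n i).IsMotive (χ n) (S n i))
    -- the orbit condition
    (hγ : ∀ n, ∃ γ : GK (K n), ∀ i, (A n i).Admissible γ)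
    (c : ℝ) (hc : ∀ n, c ≤ MotSystem.admProportion (A n) / (Module.finrank K₀ (K n) : ℝ)) :
    ∃ P : Set (HeightOneSpectrum (𝓞 K₀)), P.Infinite ∧ c ≤ lowerDensity (fun v₀ => v₀ ∈ P) ∧
      -- all projective varieties `X`, with the intersection cohomology groups `V i`
      ∀ (T : Finset ℕ) (ν : Type) [Finite ν] (r : ν → ℕ)
        (V : ∀ (i : ν) (ℓ' : ℕ) [Fact ℓ'.Prime], GK K₀ →* Matrix.GeneralLinearGroup (Fin (r i)) ℚ_[ℓ'])
        (F : ν → HeightOneSpectrum (𝓞 K₀) → ℤ[X]) (H : ν → Multiset ℕ),
        (∀ i, StrictlyCompatible T (V i) (F i)) →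
        -- positive lower density
        (∀ n, (∀ i, IsSummand (A n) T (F i) (H i)) →
          0 < lowerDensity (fun v₀ : HeightOneSpectrum (𝓞 K₀) => ∀ i, Ordinary (V i) (H i) v₀) ∧
          MotSystem.admProportion (A n) / (Module.finrank K₀ (K n) : ℝ) ≤
            lowerDensity (fun v₀ : HeightOneSpectrum (𝓞 K₀) => ∀ i, Ordinary (V i) (H i) v₀)) ∧
        -- the common set of places
        ((∀ i, ∀ᶠ n in atTop, IsSummand (A n) T (F i) (H i)) →
          {v₀ ∈ P | ¬ ∀ i, Ordinary (V i) (H i) v₀}.Finite) := by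
  have hd : ∀ n, (0 : ℝ) < (Module.finrank K₀ (K n) : ℝ) := fun n => by
    have : FiniteDimensional K₀ (K n) := Module.Finite.of_restrictScalars_finite ℚ K₀ (K n)
    exact_mod_cast Module.finrank_pos
  have hpos : ∀ n, 0 < MotSystem.admProportion (A n) / (Module.finrank K₀ (K n) : ℝ) :=
    fun n => div_pos (MotSystem.admProportion_pos (A n) (hγ n)) (hd n)
  have hlow := fun n => lower_below (K₀ := K₀) (A n) (χ n) (S n) (hA n)
  obtain ⟨P, hinf, hdens, hfin⟩ := diagonal (fun n => Below K₀ (A n) (S n))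
    (fun n => lt_of_lt_of_le (hpos n) (hlow n)) c (fun n => (hc n).trans (hlow n))
  -- a good place is ordinary
  have hord : ∀ (T : Finset ℕ) (r : ℕ)
      (V : ∀ (ℓ' : ℕ) [Fact ℓ'.Prime], GK K₀ →* Matrix.GeneralLinearGroup (Fin r) ℚ_[ℓ'])
      (F : HeightOneSpectrum (𝓞 K₀) → ℤ[X]) (H : Multiset ℕ), StrictlyCompatible T V F →
      ∀ n, IsSummand (A n) T F H → ∀ v₀, Below K₀ (A n) (S n) v₀ → Ideal.absNorm v₀.asIdeal ∉ T →
        Ordinary V H v₀ := by
    rintro T r V F H hV n hF v₀ ⟨v, h0, hg⟩ hT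
    have e := under_norm v hg.1 v₀ h0
    refine ordinary_of T V F H hV v₀ ⟨e ▸ hg.1, hT⟩ ?_
    exact newton_of_good' (A n) (χ n) (S n) (hA n) hF v₀ v h0 hg (e ▸ hT)
  refine ⟨P, hinf, hdens, fun T ν _ r V F H hV => ⟨fun n hF => ?_, fun hF => ?_⟩⟩
  · have key : MotSystem.admProportion (A n) / (Module.finrank K₀ (K n) : ℝ) ≤
        lowerDensity (fun v₀ : HeightOneSpectrum (𝓞 K₀) => ∀ i, Ordinary (V i) (H i) v₀) := by
      refine (hlow n).trans (lowerDensity_le_of_finite _ _ T ?_)
      intro v₀ hv₀ hT i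
      exact hord T (r i) (V i) (F i) (H i) (hV i) n (hF i) v₀ hv₀ hT
    exact ⟨lt_of_lt_of_le (hpos n) key, key⟩
  · obtain ⟨n₀, hn₀⟩ := eventually_atTop.mp (eventually_all.mpr hF)
    refine ((hfin n₀).union (finite_norm_mem (K := K₀) T)).subset ?_
    rintro v₀ ⟨hv, hno⟩
    by_contra hcon
    rw [Set.mem_union, not_or] at hcon
    obtain ⟨h1, h2⟩ := hcon
    have h2' : Ideal.absNorm v₀.asIdeal ∉ T := h2
    obtain ⟨n, hn, hb⟩ : ∃ n, n₀ ≤ n ∧ Below K₀ (A n) (S n) v₀ := by
      by_contra h3
      push Not at h3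
      exact h1 ⟨hv, h3⟩
    exact hno fun i => hord T (r i) (V i) (F i) (H i) (hV i) n (hn₀ n hn i) v₀ hb h2'

end Pool.Agent.Results.MP_db07cb_ag.CommonOrdinaryPrimes
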