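import Pool.Agent.R142.OrdFam

/-!
# Varieties with one non-Tate intersection cohomology group: one prime suffices

`X` is a projective variety over a number field `K`, `V i ℓ = IH^i(X, ℚ_ℓ)` for all degrees `i`: the
realisations are continuous and strictly compatible outside a finite set `B` of places, with the
Frobenius polynomials `F i v ∈ ℤ[T]` (`Compatible`), pure of weight `i` (`Weight`), and satisfy Mazur's
inequality with the Hodge slopes `H i` at the places of degree one (`Mazur`).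

Suppose that in all degrees except one degree `i₀` all Hodge slopes of `IH^i` are `i / 2`, and that
`IH^{i₀}`, of dimension `n`, is of K3 type (slopes `a`, `a + 1` (`m` times), `a + 2`, `i₀ = 2 (a + 1)`;
put `j = 1`, `u = a + 1`) or of the type of an abelian surface (slopes `a, a, a + 1, a + 1`,
`i₀ = 2 a + 1`; put `j = 2`, `u = 2 a + 1`).  Examples: normal projective surfaces `X` with `IH¹ = 0` and
one holomorphic two-form, cubic fourfolds with arbitrary singularities for which `IH⁴` is the only group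
which is not of Tate type, Fano threefolds with `h^{1,2} = 2`, ...

Then the following are equivalent: at one place `v` outside `B`, of any degree, the coefficient of
`T ^ (n - j)` in `F i₀ v` (for `j = 1`: the trace) is not divisible by `N(v) ^ u`; infinitely many primes
are ordinary for `IH^{i₀}`; the primes which are ordinary for *all* `IH^i` have lower density at least
`1 / (n.choose j) ^ 2` (that is `1 / n ^ 2` in the first case, `1 / 36` in the second).
-/

set_option autoImplicit false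

namespace Pool.Agent.Results.MP_db07cb_ag.OneNonTateDegree

open NumberField IsDedekindDomain Polynomial Filter Topology
open Pool.Agent.W401.Cheb Pool.Agent.W528.Ord Pool.Agent.R142.Ord

variable {K : Type} [Field K] [NumberField K]

/-- `v₀` has degree one, and for every prime `ℓ` different from the residue characteristic `p = N v₀` and
every embedding `τ` of the field of algebraic numbers the Newton polygon of `R ℓ` at `v₀` has the slopes
`H`. -/
def Ordinary {r : ℕ}
    (R : ∀ (ℓ : ℕ) [Fact ℓ.Prime], GK K →* Matrix.GeneralLinearGroup (Fin r) ℚ_[ℓ])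
    (H : Multiset ℕ) (v₀ : HeightOneSpectrum (𝓞 K)) : Prop :=
  ∃ (p : ℕ) (_ : Fact p.Prime), Ideal.absNorm v₀.asIdeal = p ∧
    ∀ (ℓ : ℕ) [Fact ℓ.Prime], p ≠ ℓ → ∀ γ : GK K, IsFrob v₀ γ →
      ∀ τ : algebraicClosure ℚ (PadicAlgCl ℓ) →+* PadicAlgCl p,
        NewtonTau (R ℓ γ⁻¹ : Matrix (Fin r) (Fin r) ℚ_[ℓ]) τ H

theorem ordinary_of_slopes (B : Set (HeightOneSpectrum (𝓞 K))) {r : ℕ}
    (R : ∀ (ℓ : ℕ) [Fact ℓ.Prime], GK K →* Matrix.GeneralLinearGroup (Fin r) ℚ_[ℓ])
    (F : HeightOneSpectrum (𝓞 K) → ℤ[X]) (hR : Compatible B R F) (H : Multiset ℕ)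
    (v : HeightOneSpectrum (𝓞 K)) (hv : v ∉ B) (hp : (Ideal.absNorm v.asIdeal).Prime)
    (h : NewtonSlopes (Ideal.absNorm v.asIdeal) (F v) H) : Ordinary R H v := by
  haveI : Fact (Ideal.absNorm v.asIdeal).Prime := ⟨hp⟩
  refine ⟨_, ⟨hp⟩, rfl, ?_⟩
  intro ℓ hℓ hne γ hγ τ
  exact newtonTau_of _ τ _ (F v) ((hR ℓ).2 v hv (not_mem_of_ne v _ ℓ hp hℓ.out rfl hne) γ hγ) h

theorem slopes_of_ordinary (B : Set (HeightOneSpectrum (𝓞 K))) {r : ℕ}
    (R : ∀ (ℓ : ℕ) [Fact ℓ.Prime], GK K →* Matrix.GeneralLinearGroup (Fin r) ℚ_[ℓ])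
    (F : HeightOneSpectrum (𝓞 K) → ℤ[X]) (hR : Compatible B R F) (H : Multiset ℕ)
    (v : HeightOneSpectrum (𝓞 K)) (hv : v ∉ B) (h : Ordinary R H v) :
    ∃ (p : ℕ) (_ : Fact p.Prime), Ideal.absNorm v.asIdeal = p ∧ NewtonSlopes p (F v) H := by
  obtain ⟨p, hp, hvp, h⟩ := h
  obtain ⟨ℓ, hℓ, hne⟩ : ∃ ℓ : ℕ, ℓ.Prime ∧ p ≠ ℓ := by
    by_cases h2 : p = 2
    · exact ⟨3, Nat.prime_three, by omega⟩
    · exact ⟨2, Nat.prime_two, h2⟩
  haveI : Fact ℓ.Prime := ⟨hℓ⟩
  obtain ⟨γ, hγ⟩ := exists_isFrob v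
  obtain ⟨τ⟩ := exists_tau' (p := p) ℓ
  exact ⟨p, hp, hvp, slopes_of_tau _ τ H (F v)
    ((hR ℓ).2 v hv (not_mem_of_ne v p ℓ hp.out hℓ hvp hne) γ hγ) (h ℓ hne γ hγ τ)⟩

theorem tate (B : Set (HeightOneSpectrum (𝓞 K))) {r : ℕ} (i : ℕ)
    (R : ∀ (ℓ : ℕ) [Fact ℓ.Prime], GK K →* Matrix.GeneralLinearGroup (Fin r) ℚ_[ℓ])
    (F : HeightOneSpectrum (𝓞 K) → ℤ[X]) (hR : Compatible B R F) (hW : Weight B i F) (l : List ℕ)
    (hl : l.length = r) (hM : Mazur B l F) (hT : ∀ a ∈ l, 2 * a = i)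
    (v : HeightOneSpectrum (𝓞 K)) (hv : v ∉ B) (hp : (Ideal.absNorm v.asIdeal).Prime) :
    NewtonSlopes (Ideal.absNorm v.asIdeal) (F v) l := by
  haveI : Fact (Ideal.absNorm v.asIdeal).Prime := ⟨hp⟩
  obtain ⟨hm, hn⟩ := monic_of B R F hR v hv
  rcases l with _ | ⟨b, t⟩
  · have h0 : r = 0 := by simpa using hl.symm
    have h1 : F v = 1 := by
      rw [h0] at hn
      exact hm.natDegree_eq_zero.mp hn
    refine ⟨inferInstance, ?_⟩
    rw [h1]
    simp
  · have hb : 2 * b = i := hT b (by simp)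
    have hrep : b :: t = List.replicate r b := by
      rw [List.eq_replicate_iff]
      refine ⟨hl, ?_⟩
      intro c hc
      have := hT c hc
      omega
    rw [hrep]
    refine newton_tate b r (F v) hm hn ?_ ?_
    · rw [hb]
      exact hW v hv
    · intro k hk
      have h2 := hM v hv hp k (by omega)
      rwa [hl, hrep] at h2

/-- K3 type (`j = 1`) and abelian surface type (`j = 2`): weight `w`, Hodge slopes `H`, `N(v) ^ u` divides
the coefficient of `T ^ (n - j)` unless `v` is ordinary -/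
inductive SmallType : (w : ℕ) → (H : List ℕ) → (j u : ℕ) → Prop
  | k3 (a m : ℕ) : SmallType (2 * (a + 1)) (k3Slopes a m) 1 (a + 1)
  | ab (a : ℕ) : SmallType (2 * a + 1) (abSlopes a) 2 (2 * a + 1)

theorem SmallType.cases' {w j u : ℕ} {H : List ℕ} (h : SmallType w H j u) :
    (∃ a m, w = 2 * (a + 1) ∧ H = k3Slopes a m ∧ j = 1 ∧ u = a + 1) ∨
    (∃ a, w = 2 * a + 1 ∧ H = abSlopes a ∧ j = 2 ∧ u = 2 * a + 1) := by
  cases h with
  | k3 a m => exact Or.inl ⟨a, m, rfl, rfl, rfl, rfl⟩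
  | ab a => exact Or.inr ⟨a, rfl, rfl, rfl, rfl⟩

theorem result (K : Type) [Field K] [NumberField K] (B : Set (HeightOneSpectrum (𝓞 K)))
    (hB : B.Finite)
    -- the intersection cohomology groups, their Frobenius polynomials and Hodge slopes
    (n : ℕ → ℕ) (V : ∀ (i ℓ : ℕ) [Fact ℓ.Prime], GK K →* Matrix.GeneralLinearGroup (Fin (n i)) ℚ_[ℓ])
    (F : ℕ → HeightOneSpectrum (𝓞 K) → ℤ[X]) (H : ℕ → List ℕ) (hH : ∀ i, (H i).length = n i)
    (hV : ∀ i, Compatible B (V i) (F i)) (hW : ∀ i, Weight B i (F i)) (hM : ∀ i, Mazur B (H i) (F i))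
    -- all groups but one are of Tate type, and this one is of K3 or of abelian surface type
    (i₀ : ℕ) (hT : ∀ i, i ≠ i₀ → ∀ a ∈ H i, 2 * a = i) (j u : ℕ) (h₀ : SmallType i₀ (H i₀) j u) :
    List.TFAE [
      ∃ v, v ∉ B ∧ ¬ (Ideal.absNorm v.asIdeal : ℤ) ^ u ∣ (F i₀ v).coeff (n i₀ - j),
      {v | Ordinary (V i₀) (H i₀) v}.Infinite,
      1 / ((n i₀).choose j : ℝ) ^ 2 ≤ lowerDensity (fun v => ∀ i, Ordinary (V i) (H i) v)] := by
  have others : ∀ i, i ≠ i₀ → ∀ v, v ∉ B → (Ideal.absNorm v.asIdeal).Prime →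
      Ordinary (V i) (H i) v := by
    intro i hi v hv hp
    exact ordinary_of_slopes B (V i) (F i) (hV i) _ v hv hp
      (tate B i (V i) (F i) (hV i) (hW i) (H i) (hH i) (hM i) (hT i hi) v hv hp)
  rcases h₀.cases' with ⟨a, m, hi₀, hHi, rfl, rfl⟩ | ⟨a, hi₀, hHi, rfl, rfl⟩
  · have hlen : n i₀ = m + 2 := by
      rw [← hH i₀, hHi]
      unfold k3Slopes
      simp
    have hpos : (0 : ℝ) < 1 / ((n i₀).choose 1 : ℝ) ^ 2 := by
      rw [Nat.choose_one_right]
      have : 0 < n i₀ := by omega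
      positivity
    tfae_have 1 → 3 := by
      rintro ⟨v₀, hv₀, h₀⟩
      have h1 := engine B hB (V i₀) (F i₀) (hV i₀) i₀ (hW i₀) 1 (a + 1) (Or.inl rfl) (by omega)
        (by rw [hi₀]; ring) v₀ hv₀ h₀
      refine h1.trans (lowerDensity_mono _ _ ?_)
      rintro v ⟨hv, hp, hno⟩ i
      by_cases hi : i = i₀
      · subst hi
        haveI : Fact (Ideal.absNorm v.asIdeal).Prime := ⟨hp⟩
        obtain ⟨hm, hn⟩ := monic_of B (V i) (F i) (hV i) v hv
        refine ordinary_of_slopes B (V i) (F i) (hV i) _ v hv hp ?_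
        rw [hHi]
        refine newton_k3 a m (F i v) hm (by rw [hn, hlen]) ?_ ?_ ?_
        · rw [← hi₀]
          exact hW i v hv
        · intro k hk
          have := hM i v hv hp k (by rw [hH i, hlen]; exact hk)
          rw [hH i, hlen, hHi] at this
          exact this
        · rw [hlen] at hno
          exact hno
      · exact others i hi v hv hp
    tfae_have 3 → 2 := by
      intro h
      refine (infinite_of _ _ hpos h).mono ?_
      intro v hv
      exact hv i₀
    tfae_have 2 → 1 := by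
      intro h
      obtain ⟨v, hv, hvB⟩ := (h.sdiff hB).nonempty
      obtain ⟨p, hp, hvp, hs⟩ := slopes_of_ordinary B (V i₀) (F i₀) (hV i₀) _ v hvB hv
      obtain ⟨hm, hn⟩ := monic_of B (V i₀) (F i₀) (hV i₀) v hvB
      refine ⟨v, hvB, ?_⟩
      rw [hvp, hlen]
      rw [hHi] at hs
      exact coeff_of_k3 a m (F i₀ v) hm (by rw [hn, hlen]) hs
    tfae_finish
  · have hlen : n i₀ = 4 := by
      rw [← hH i₀, hHi]
      rfl
    have hpos : (0 : ℝ) < 1 / ((n i₀).choose 2 : ℝ) ^ 2 := by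
      have : Nat.choose (n i₀) 2 = 6 := by rw [hlen]; decide
      rw [this]
      norm_num
    tfae_have 1 → 3 := by
      rintro ⟨v₀, hv₀, h₀⟩
      have h1 := engine B hB (V i₀) (F i₀) (hV i₀) i₀ (hW i₀) 2 (2 * a + 1) (Or.inr rfl) (by omega)
        (by rw [hi₀]) v₀ hv₀ h₀
      refine h1.trans (lowerDensity_mono _ _ ?_)
      rintro v ⟨hv, hp, hno⟩ i
      by_cases hi : i = i₀
      · subst hi
        haveI : Fact (Ideal.absNorm v.asIdeal).Prime := ⟨hp⟩
        obtain ⟨hm, hn⟩ := monic_of B (V i) (F i) (hV i) v hv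
        refine ordinary_of_slopes B (V i) (F i) (hV i) _ v hv hp ?_
        rw [hHi]
        refine newton_ab a (F i v) hm (by rw [hn, hlen]) ?_ ?_ ?_
        · rw [← hi₀]
          exact hW i v hv
        · intro k hk
          have := hM i v hv hp k (by rw [hH i, hlen]; exact hk)
          rw [hH i, hlen, hHi] at this
          exact this
        · rw [hlen] at hno
          exact hno
      · exact others i hi v hv hp
    tfae_have 3 → 2 := by
      intro h
      refine (infinite_of _ _ hpos h).mono ?_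
      intro v hv
      exact hv i₀
    tfae_have 2 → 1 := by
      intro h
      obtain ⟨v, hv, hvB⟩ := (h.sdiff hB).nonempty
      obtain ⟨p, hp, hvp, hs⟩ := slopes_of_ordinary B (V i₀) (F i₀) (hV i₀) _ v hvB hv
      obtain ⟨hm, hn⟩ := monic_of B (V i₀) (F i₀) (hV i₀) v hvB
      refine ⟨v, hvB, ?_⟩
      rw [hvp, hlen]
      rw [hHi] at hs
      exact coeff_of_ab a (F i₀ v) hm hs
    tfae_finish

end Pool.Agent.Results.MP_db07cb_ag.OneNonTateDegree
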