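import Pool.Agent.R915.O3

/-!
# Ordinary primes for intersection cohomology in a tensor category

`K₀` is a number field and `X` a projective variety over `K₀`, `V n ℓ'` its intersection cohomology in
degree `n` with coefficients in `ℚ_ℓ'` (for `n` in any set of degrees), `F n v₀` the characteristic
polynomial of the geometric Frobenius element at `v₀` (integral, independent of `ℓ'`) and `H n` the
Hodge-Tate slopes.  (More generally, the `V n` are any strictly compatible systems.)

Over a finite extension `K` of `K₀` let `A i` be finitely many pure motives with multiplication by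
totally real or CM fields `(A i).E` (over `K` the `ℓ`-adic monodromy groups are connected, for one prime
`ℓ`): for example the `H¹` of abelian varieties with real or complex multiplications, `H²` of K3
surfaces, Artin motives, Tate motives, motives with complex multiplication, motives of Hilbert modular
forms. A *piece* of `A i` is the part of `A i ⊗ ℚ̄` on which `(A i).E` acts by one embedding `σ`.

Hypothesis (`IsSummand`): every `V n` is over `K`, after a Tate twist, a direct summand of a direct sum of
tensor products of pieces (with a complement which satisfies Mazur's inequality). So `V n` is any object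
of the tensor category generated by the `A i`; its monodromy group and its Hodge numbers are arbitrary.

Orbit condition (`Admissible γ`, `γ` in the Galois group of `K`): for every embedding `σ` and every vertex
`k` of the Hodge polygon of the `σ`-piece of `A i`, the orbit of `σ` under the powers of `γ` is at least
as large as half of the sum of `w k - 2 hp σ' k` over all embeddings `σ'` (`hp σ' k`: the sum of the `k`
smallest slopes of the `σ'`-piece). It holds for all `γ` if these sums are at most `2`, for instance for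
elliptic curves, abelian surfaces and K3 surfaces. It concerns the generators `A i` only. For the `V n`
themselves the sums are much larger, already for the `H³` of a product of three elliptic curves, or for
the middle cohomology of a Hilbert modular variety of dimension at least three.

Theorem. The places `v` of `K` at which all `V n` are ordinary have lower density at least the proportion
of the elements `γ` which satisfy the orbit condition for all `i` (density one, if all `γ` do). If there
is such a `γ`, the places `v₀` of `K₀` at which all `V n` are ordinary have positive lower density.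
-/

set_option autoImplicit false

namespace Pool.Agent.Results.MP_db07cb_ag.TensorCategory

open NumberField IsDedekindDomain Polynomial Filter Topology
open Pool.Agent.W401.Cheb Pool.Agent.W528.Ord Pool.Agent.R915.Ord

/-- The `V ℓ'` are strictly compatible: at the places of degree one outside `S` the characteristic
polynomial of the geometric Frobenius element (the inverse of `γ`) is `F v`. -/
def StrictlyCompatible {K₀ : Type} [Field K₀] [NumberField K₀] (S : Finset ℕ) {r : ℕ}
    (V : ∀ (ℓ' : ℕ) [Fact ℓ'.Prime], GK K₀ →* Matrix.GeneralLinearGroup (Fin r) ℚ_[ℓ'])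
    (F : HeightOneSpectrum (𝓞 K₀) → Polynomial ℤ) : Prop :=
  ∀ (ℓ' : ℕ) [Fact ℓ'.Prime] (v₀ : HeightOneSpectrum (𝓞 K₀)), MultSystem.IsDeg1 S v₀ →
    Ideal.absNorm v₀.asIdeal ≠ ℓ' → ∀ γ : GK K₀, IsFrob v₀ γ →
      (V ℓ' γ⁻¹ : Matrix (Fin r) (Fin r) ℚ_[ℓ']).charpoly = (F v₀).map (Int.castRingHom ℚ_[ℓ'])

/-- For every prime `ℓ'` different from the residue characteristic `p = N v₀` and every embedding `τ`
of the field of algebraic numbers the Newton polygon of `V ℓ'` at `v₀` has the slopes `H`. -/
def Ordinary {K₀ : Type} [Field K₀] [NumberField K₀] {r : ℕ}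
    (V : ∀ (ℓ' : ℕ) [Fact ℓ'.Prime], GK K₀ →* Matrix.GeneralLinearGroup (Fin r) ℚ_[ℓ'])
    (H : Multiset ℕ) (v₀ : HeightOneSpectrum (𝓞 K₀)) : Prop :=
  ∃ (p : ℕ) (_ : Fact p.Prime), Ideal.absNorm v₀.asIdeal = p ∧
    ∀ (ℓ' : ℕ) [Fact ℓ'.Prime], p ≠ ℓ' → ∀ γ : GK K₀, IsFrob v₀ γ →
      ∀ τ : algebraicClosure ℚ (PadicAlgCl ℓ') →+* PadicAlgCl p,
        NewtonTau (V ℓ' γ⁻¹ : Matrix (Fin r) (Fin r) ℚ_[ℓ']) τ H

theorem ordinary_of {K₀ : Type} [Field K₀] [NumberField K₀] (S : Finset ℕ) {r : ℕ}
    (V : ∀ (ℓ' : ℕ) [Fact ℓ'.Prime], GK K₀ →* Matrix.GeneralLinearGroup (Fin r) ℚ_[ℓ'])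
    (F : HeightOneSpectrum (𝓞 K₀) → Polynomial ℤ) (H : Multiset ℕ) (hV : StrictlyCompatible S V F)
    (v₀ : HeightOneSpectrum (𝓞 K₀)) (hv : MultSystem.IsDeg1 S v₀)
    (hN : NewtonSlopes (Ideal.absNorm v₀.asIdeal) (F v₀) H) : Ordinary V H v₀ := by
  have hN' := hN
  obtain ⟨hp, -⟩ := hN
  refine ⟨Ideal.absNorm v₀.asIdeal, hp, rfl, ?_⟩
  intro ℓ' _ hne γ hγ τ
  exact newtonTau_of _ τ _ (F v₀) (hV ℓ' v₀ hv hne γ hγ) hN'

theorem result (K₀ K : Type) [Field K₀] [NumberField K₀] [Field K] [NumberField K] [Algebra K₀ K]
    (ℓ : ℕ) [Fact ℓ.Prime] {ι : Type} [Fintype ι]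
    -- the motives `A i` over `K`
    (A : ι → MotSystem K ℓ) (χ : GK K →* (PadicAlgCl ℓ)ˣ) (S : Finset ℕ) (hA : ∀ i, (A i).IsMotive χ S)
    -- the intersection cohomology groups `V n` over `K₀`
    {ν : Type} (r : ν → ℕ)
    (V : ∀ (n : ν) (ℓ' : ℕ) [Fact ℓ'.Prime], GK K₀ →* Matrix.GeneralLinearGroup (Fin (r n)) ℚ_[ℓ'])
    (F : ν → HeightOneSpectrum (𝓞 K₀) → ℤ[X]) (H : ν → Multiset ℕ)
    (hV : ∀ n, StrictlyCompatible S (V n) (F n))
    -- the `V n` are in the tensor category generated by the `A i`
    (hF : ∀ n, IsSummand A S (F n) (H n)) :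
    MotSystem.admProportion A ≤ lowerDensity (fun v : HeightOneSpectrum (𝓞 K) =>
      ∀ v₀ : HeightOneSpectrum (𝓞 K₀), v.asIdeal.comap (algebraMap (𝓞 K₀) (𝓞 K)) = v₀.asIdeal →
        ∀ n, Ordinary (V n) (H n) v₀) ∧
    ((∃ γ : GK K, ∀ i, (A i).Admissible γ) →
      0 < lowerDensity fun v₀ : HeightOneSpectrum (𝓞 K₀) => ∀ n, Ordinary (V n) (H n) v₀) := by
  refine ⟨?_, fun hγ => ?_⟩
  · refine le_trans (lowerDensity_ge (GoodAt A S) _ (lower_good A χ S hA)) ?_
    apply lowerDensity_mono
    intro v hv v₀ h0 n
    have e := under_norm v hv.1.1 v₀ h0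
    refine ordinary_of S (V n) (F n) (H n) (hV n) v₀ ?_ (newton_of_good A χ S hA (hF n) v₀ v h0 hv)
    unfold MultSystem.IsDeg1
    rw [e]
    exact hv.1
  · refine lt_of_lt_of_le (lower_summands A χ S hA F H hF hγ) ?_
    apply lowerDensity_mono
    rintro v₀ ⟨hv, hN⟩ n
    exact ordinary_of S (V n) (F n) (H n) (hV n) v₀ hv (hN n)

end Pool.Agent.Results.MP_db07cb_ag.TensorCategory
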